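import Mathlib

/-!
# The determinant of a stochastic matrix of order four with a large diagonal
-/

set_option autoImplicit false

namespace Pool.Agent.Helper4.ML3

open Finset

/-- the determinant of order four -/
def PP (a0 a1 a2 a3 b0 b1 b2 b3 c0 c1 c2 c3 d0 d1 d2 d3 : ℝ) : ℝ :=
  a0 * (b1 * (c2 * d3 - c3 * d2) - b2 * (c1 * d3 - c3 * d1) + b3 * (c1 * d2 - c2 * d1)) -
  a1 * (b0 * (c2 * d3 - c3 * d2) - b2 * (c0 * d3 - c3 * d0) + b3 * (c0 * d2 - c2 * d0)) +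
  a2 * (b0 * (c1 * d3 - c3 * d1) - b1 * (c0 * d3 - c3 * d0) + b3 * (c0 * d1 - c1 * d0)) -
  a3 * (b0 * (c1 * d2 - c2 * d1) - b1 * (c0 * d2 - c2 * d0) + b2 * (c0 * d1 - c1 * d0))

theorem det_eq (M : Matrix (Fin 4) (Fin 4) ℝ) : M.det = PP (M 0 0) (M 0 1) (M 0 2) (M 0 3) (M 1 0) (M 1 1) (M 1 2) (M 1 3)
    (M 2 0) (M 2 1) (M 2 2) (M 2 3) (M 3 0) (M 3 1) (M 3 2) (M 3 3) := by
  unfold PP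
  rw [Matrix.det_succ_row_zero]
  simp [Fin.sum_univ_succ, Matrix.det_fin_three, Matrix.submatrix_apply, Fin.succAbove]
  ring

theorem red {α β γ x y z : ℝ} (hx : 0 ≤ x) (hy : 0 ≤ y) (hz : 0 ≤ z) :
    α * (x + y + z) ≤ α * x + β * y + γ * z ∨ β * (x + y + z) ≤ α * x + β * y + γ * z ∨
      γ * (x + y + z) ≤ α * x + β * y + γ * z := by
  rcases le_total α β with h1 | h1
  · rcases le_total α γ with h2 | h2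
    · left
      nlinarith [mul_le_mul_of_nonneg_right h1 hy, mul_le_mul_of_nonneg_right h2 hz]
    · right; right
      nlinarith [mul_le_mul_of_nonneg_right h2 hx, mul_le_mul_of_nonneg_right (h2.trans h1) hy]
  · rcases le_total β γ with h2 | h2
    · right; left
      nlinarith [mul_le_mul_of_nonneg_right h1 hx, mul_le_mul_of_nonneg_right h2 hz]
    · right; right
      nlinarith [mul_le_mul_of_nonneg_right (h2.trans h1) hx, mul_le_mul_of_nonneg_right h2 hy]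

theorem row0 {x y z : ℝ} (hx : 0 ≤ x) (hy : 0 ≤ y) (hz : 0 ≤ z) (b0 b1 b2 b3 c0 c1 c2 c3 d0 d1 d2 d3 : ℝ) :
    PP (1 - (x + y + z)) (x + y + z) 0 0 b0 b1 b2 b3 c0 c1 c2 c3 d0 d1 d2 d3 ≤
      PP (1 - (x + y + z)) x y z b0 b1 b2 b3 c0 c1 c2 c3 d0 d1 d2 d3 ∨
    PP (1 - (x + y + z)) 0 (x + y + z) 0 b0 b1 b2 b3 c0 c1 c2 c3 d0 d1 d2 d3 ≤
      PP (1 - (x + y + z)) x y z b0 b1 b2 b3 c0 c1 c2 c3 d0 d1 d2 d3 ∨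
    PP (1 - (x + y + z)) 0 0 (x + y + z) b0 b1 b2 b3 c0 c1 c2 c3 d0 d1 d2 d3 ≤
      PP (1 - (x + y + z)) x y z b0 b1 b2 b3 c0 c1 c2 c3 d0 d1 d2 d3 := by
  have e : ∀ p0 p1 p2 p3 : ℝ, PP p0 p1 p2 p3 b0 b1 b2 b3 c0 c1 c2 c3 d0 d1 d2 d3 =
      p0 * (PP 1 0 0 0 b0 b1 b2 b3 c0 c1 c2 c3 d0 d1 d2 d3) + p1 * (PP 0 1 0 0 b0 b1 b2 b3 c0 c1 c2 c3 d0 d1 d2 d3) +
      p2 * (PP 0 0 1 0 b0 b1 b2 b3 c0 c1 c2 c3 d0 d1 d2 d3) + p3 * (PP 0 0 0 1 b0 b1 b2 b3 c0 c1 c2 c3 d0 d1 d2 d3) := by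
    intro p0 p1 p2 p3
    unfold PP
    ring
  have ef := e (1 - (x + y + z)) x y z
  have e0 := e (1 - (x + y + z)) (x + y + z) 0 0
  have e1 := e (1 - (x + y + z)) 0 (x + y + z) 0
  have e2 := e (1 - (x + y + z)) 0 0 (x + y + z)
  rcases red (α := (PP 0 1 0 0 b0 b1 b2 b3 c0 c1 c2 c3 d0 d1 d2 d3)) (β := (PP 0 0 1 0 b0 b1 b2 b3 c0 c1 c2 c3 d0 d1 d2 d3))
    (γ := (PP 0 0 0 1 b0 b1 b2 b3 c0 c1 c2 c3 d0 d1 d2 d3)) hx hy hz with h | h | h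
  · left
    rw [ef, e0]
    linarith
  · right; left
    rw [ef, e1]
    linarith
  · right; right
    rw [ef, e2]
    linarith

theorem row1 {x y z : ℝ} (hx : 0 ≤ x) (hy : 0 ≤ y) (hz : 0 ≤ z) (a0 a1 a2 a3 c0 c1 c2 c3 d0 d1 d2 d3 : ℝ) :
    PP a0 a1 a2 a3 (x + y + z) (1 - (x + y + z)) 0 0 c0 c1 c2 c3 d0 d1 d2 d3 ≤
      PP a0 a1 a2 a3 x (1 - (x + y + z)) y z c0 c1 c2 c3 d0 d1 d2 d3 ∨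
    PP a0 a1 a2 a3 0 (1 - (x + y + z)) (x + y + z) 0 c0 c1 c2 c3 d0 d1 d2 d3 ≤
      PP a0 a1 a2 a3 x (1 - (x + y + z)) y z c0 c1 c2 c3 d0 d1 d2 d3 ∨
    PP a0 a1 a2 a3 0 (1 - (x + y + z)) 0 (x + y + z) c0 c1 c2 c3 d0 d1 d2 d3 ≤
      PP a0 a1 a2 a3 x (1 - (x + y + z)) y z c0 c1 c2 c3 d0 d1 d2 d3 := by
  have e : ∀ p0 p1 p2 p3 : ℝ, PP a0 a1 a2 a3 p0 p1 p2 p3 c0 c1 c2 c3 d0 d1 d2 d3 =
      p0 * (PP a0 a1 a2 a3 1 0 0 0 c0 c1 c2 c3 d0 d1 d2 d3) + p1 * (PP a0 a1 a2 a3 0 1 0 0 c0 c1 c2 c3 d0 d1 d2 d3) +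
      p2 * (PP a0 a1 a2 a3 0 0 1 0 c0 c1 c2 c3 d0 d1 d2 d3) + p3 * (PP a0 a1 a2 a3 0 0 0 1 c0 c1 c2 c3 d0 d1 d2 d3) := by
    intro p0 p1 p2 p3
    unfold PP
    ring
  have ef := e x (1 - (x + y + z)) y z
  have e0 := e (x + y + z) (1 - (x + y + z)) 0 0
  have e1 := e 0 (1 - (x + y + z)) (x + y + z) 0
  have e2 := e 0 (1 - (x + y + z)) 0 (x + y + z)
  rcases red (α := (PP a0 a1 a2 a3 1 0 0 0 c0 c1 c2 c3 d0 d1 d2 d3)) (β := (PP a0 a1 a2 a3 0 0 1 0 c0 c1 c2 c3 d0 d1 d2 d3))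
    (γ := (PP a0 a1 a2 a3 0 0 0 1 c0 c1 c2 c3 d0 d1 d2 d3)) hx hy hz with h | h | h
  · left
    rw [ef, e0]
    linarith
  · right; left
    rw [ef, e1]
    linarith
  · right; right
    rw [ef, e2]
    linarith

theorem row2 {x y z : ℝ} (hx : 0 ≤ x) (hy : 0 ≤ y) (hz : 0 ≤ z) (a0 a1 a2 a3 b0 b1 b2 b3 d0 d1 d2 d3 : ℝ) :
    PP a0 a1 a2 a3 b0 b1 b2 b3 (x + y + z) 0 (1 - (x + y + z)) 0 d0 d1 d2 d3 ≤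
      PP a0 a1 a2 a3 b0 b1 b2 b3 x y (1 - (x + y + z)) z d0 d1 d2 d3 ∨
    PP a0 a1 a2 a3 b0 b1 b2 b3 0 (x + y + z) (1 - (x + y + z)) 0 d0 d1 d2 d3 ≤
      PP a0 a1 a2 a3 b0 b1 b2 b3 x y (1 - (x + y + z)) z d0 d1 d2 d3 ∨
    PP a0 a1 a2 a3 b0 b1 b2 b3 0 0 (1 - (x + y + z)) (x + y + z) d0 d1 d2 d3 ≤
      PP a0 a1 a2 a3 b0 b1 b2 b3 x y (1 - (x + y + z)) z d0 d1 d2 d3 := by
  have e : ∀ p0 p1 p2 p3 : ℝ, PP a0 a1 a2 a3 b0 b1 b2 b3 p0 p1 p2 p3 d0 d1 d2 d3 =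
      p0 * (PP a0 a1 a2 a3 b0 b1 b2 b3 1 0 0 0 d0 d1 d2 d3) + p1 * (PP a0 a1 a2 a3 b0 b1 b2 b3 0 1 0 0 d0 d1 d2 d3) +
      p2 * (PP a0 a1 a2 a3 b0 b1 b2 b3 0 0 1 0 d0 d1 d2 d3) + p3 * (PP a0 a1 a2 a3 b0 b1 b2 b3 0 0 0 1 d0 d1 d2 d3) := by
    intro p0 p1 p2 p3
    unfold PP
    ring
  have ef := e x y (1 - (x + y + z)) z
  have e0 := e (x + y + z) 0 (1 - (x + y + z)) 0
  have e1 := e 0 (x + y + z) (1 - (x + y + z)) 0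
  have e2 := e 0 0 (1 - (x + y + z)) (x + y + z)
  rcases red (α := (PP a0 a1 a2 a3 b0 b1 b2 b3 1 0 0 0 d0 d1 d2 d3)) (β := (PP a0 a1 a2 a3 b0 b1 b2 b3 0 1 0 0 d0 d1 d2 d3))
    (γ := (PP a0 a1 a2 a3 b0 b1 b2 b3 0 0 0 1 d0 d1 d2 d3)) hx hy hz with h | h | h
  · left
    rw [ef, e0]
    linarith
  · right; left
    rw [ef, e1]
    linarith
  · right; right
    rw [ef, e2]
    linarith

theorem row3 {x y z : ℝ} (hx : 0 ≤ x) (hy : 0 ≤ y) (hz : 0 ≤ z) (a0 a1 a2 a3 b0 b1 b2 b3 c0 c1 c2 c3 : ℝ) :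
    PP a0 a1 a2 a3 b0 b1 b2 b3 c0 c1 c2 c3 (x + y + z) 0 0 (1 - (x + y + z)) ≤
      PP a0 a1 a2 a3 b0 b1 b2 b3 c0 c1 c2 c3 x y z (1 - (x + y + z)) ∨
    PP a0 a1 a2 a3 b0 b1 b2 b3 c0 c1 c2 c3 0 (x + y + z) 0 (1 - (x + y + z)) ≤
      PP a0 a1 a2 a3 b0 b1 b2 b3 c0 c1 c2 c3 x y z (1 - (x + y + z)) ∨
    PP a0 a1 a2 a3 b0 b1 b2 b3 c0 c1 c2 c3 0 0 (x + y + z) (1 - (x + y + z)) ≤
      PP a0 a1 a2 a3 b0 b1 b2 b3 c0 c1 c2 c3 x y z (1 - (x + y + z)) := by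
  have e : ∀ p0 p1 p2 p3 : ℝ, PP a0 a1 a2 a3 b0 b1 b2 b3 c0 c1 c2 c3 p0 p1 p2 p3 =
      p0 * (PP a0 a1 a2 a3 b0 b1 b2 b3 c0 c1 c2 c3 1 0 0 0) + p1 * (PP a0 a1 a2 a3 b0 b1 b2 b3 c0 c1 c2 c3 0 1 0 0) +
      p2 * (PP a0 a1 a2 a3 b0 b1 b2 b3 c0 c1 c2 c3 0 0 1 0) + p3 * (PP a0 a1 a2 a3 b0 b1 b2 b3 c0 c1 c2 c3 0 0 0 1) := by
    intro p0 p1 p2 p3
    unfold PP
    ring
  have ef := e x y z (1 - (x + y + z))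
  have e0 := e (x + y + z) 0 0 (1 - (x + y + z))
  have e1 := e 0 (x + y + z) 0 (1 - (x + y + z))
  have e2 := e 0 0 (x + y + z) (1 - (x + y + z))
  rcases red (α := (PP a0 a1 a2 a3 b0 b1 b2 b3 c0 c1 c2 c3 1 0 0 0)) (β := (PP a0 a1 a2 a3 b0 b1 b2 b3 c0 c1 c2 c3 0 1 0 0))
    (γ := (PP a0 a1 a2 a3 b0 b1 b2 b3 c0 c1 c2 c3 0 0 1 0)) hx hy hz with h | h | h
  · left
    rw [ef, e0]
    linarith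
  · right; left
    rw [ef, e1]
    linarith
  · right; right
    rw [ef, e2]
    linarith

/-- the vertices -/
theorem vert {A B C D : ℝ} (hA : 0 ≤ A) (hB : 0 ≤ B) (hC : 0 ≤ C) (hD : 0 ≤ D) (hs : A + B + C + D ≤ 1)
    {x1 x2 x3 y0 y2 y3 z0 z1 z3 w0 w1 w2 : ℝ}
    (h0 : (x1 = A ∧ x2 = 0 ∧ x3 = 0) ∨ (x1 = 0 ∧ x2 = A ∧ x3 = 0) ∨ (x1 = 0 ∧ x2 = 0 ∧ x3 = A))
    (h1 : (y0 = B ∧ y2 = 0 ∧ y3 = 0) ∨ (y0 = 0 ∧ y2 = B ∧ y3 = 0) ∨ (y0 = 0 ∧ y2 = 0 ∧ y3 = B))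
    (h2 : (z0 = C ∧ z1 = 0 ∧ z3 = 0) ∨ (z0 = 0 ∧ z1 = C ∧ z3 = 0) ∨ (z0 = 0 ∧ z1 = 0 ∧ z3 = C))
    (h3 : (w0 = D ∧ w1 = 0 ∧ w2 = 0) ∨ (w0 = 0 ∧ w1 = D ∧ w2 = 0) ∨ (w0 = 0 ∧ w1 = 0 ∧ w2 = D)) :
    (1 - A - B) * (1 - C - D) ≤ PP (1 - A) x1 x2 x3 y0 (1 - B) y2 y3 z0 z1 (1 - C) z3 w0 w1 w2 (1 - D) ∨
    (1 - A - C) * (1 - B - D) ≤ PP (1 - A) x1 x2 x3 y0 (1 - B) y2 y3 z0 z1 (1 - C) z3 w0 w1 w2 (1 - D) ∨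
    (1 - A - D) * (1 - B - C) ≤ PP (1 - A) x1 x2 x3 y0 (1 - B) y2 y3 z0 z1 (1 - C) z3 w0 w1 w2 (1 - D) := by
  have t0 := mul_nonneg (mul_nonneg (show 0 ≤ 1 - A - B by linarith) hC) hD
  have t1 := mul_nonneg (mul_nonneg hA hB) (show 0 ≤ 1 - C by linarith)
  have t2 := mul_nonneg (mul_nonneg hA hB) (show 0 ≤ 1 - D by linarith)
  have t3 := mul_nonneg (mul_nonneg (show 0 ≤ 1 - A - C by linarith) hB) hD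
  have t4 := mul_nonneg (mul_nonneg hA hC) (show 0 ≤ 1 - B by linarith)
  have t5 := mul_nonneg (mul_nonneg hA hC) (show 0 ≤ 1 - D by linarith)
  have t6 := mul_nonneg (mul_nonneg (show 0 ≤ 1 - A - D by linarith) hB) hC
  have t7 := mul_nonneg (mul_nonneg hA hD) (show 0 ≤ 1 - B by linarith)
  have t8 := mul_nonneg (mul_nonneg hA hD) (show 0 ≤ 1 - C by linarith)
  have t9 := mul_nonneg (mul_nonneg (show 0 ≤ 1 - B - C by linarith) hA) hD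
  have t10 := mul_nonneg (mul_nonneg hB hC) (show 0 ≤ 1 - A by linarith)
  have t11 := mul_nonneg (mul_nonneg hB hC) (show 0 ≤ 1 - D by linarith)
  have t12 := mul_nonneg (mul_nonneg (show 0 ≤ 1 - B - D by linarith) hA) hC
  have t13 := mul_nonneg (mul_nonneg hB hD) (show 0 ≤ 1 - A by linarith)
  have t14 := mul_nonneg (mul_nonneg hB hD) (show 0 ≤ 1 - C by linarith)
  have t15 := mul_nonneg (mul_nonneg (show 0 ≤ 1 - C - D by linarith) hA) hB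
  have t16 := mul_nonneg (mul_nonneg hC hD) (show 0 ≤ 1 - A by linarith)
  have t17 := mul_nonneg (mul_nonneg hC hD) (show 0 ≤ 1 - B by linarith)
  rcases h0 with ⟨rfl, rfl, rfl⟩ | ⟨rfl, rfl, rfl⟩ | ⟨rfl, rfl, rfl⟩ <;>
  rcases h1 with ⟨rfl, rfl, rfl⟩ | ⟨rfl, rfl, rfl⟩ | ⟨rfl, rfl, rfl⟩ <;>
  rcases h2 with ⟨rfl, rfl, rfl⟩ | ⟨rfl, rfl, rfl⟩ | ⟨rfl, rfl, rfl⟩ <;>
  rcases h3 with ⟨rfl, rfl, rfl⟩ | ⟨rfl, rfl, rfl⟩ | ⟨rfl, rfl, rfl⟩ <;>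
  unfold PP <;>
  first
  | exact Or.inl (by linarith)
  | exact Or.inr (Or.inl (by linarith))
  | exact Or.inr (Or.inr (by linarith))

theorem PP_ge {a1 a2 a3 b0 b2 b3 c0 c1 c3 d0 d1 d2 : ℝ} (ha1 : 0 ≤ a1) (ha2 : 0 ≤ a2) (ha3 : 0 ≤ a3) (hb0 : 0 ≤ b0) (hb2 : 0 ≤ b2) (hb3 : 0 ≤ b3) (hc0 : 0 ≤ c0) (hc1 : 0 ≤ c1) (hc3 : 0 ≤ c3) (hd0 : 0 ≤ d0) (hd1 : 0 ≤ d1) (hd2 : 0 ≤ d2)
    (hs : (a1 + a2 + a3) + (b0 + b2 + b3) + (c0 + c1 + c3) + (d0 + d1 + d2) ≤ 1) :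
    (1 - (a1 + a2 + a3) - (b0 + b2 + b3)) * (1 - (c0 + c1 + c3) - (d0 + d1 + d2)) ≤ PP (1 - (a1 + a2 + a3)) a1 a2 a3 b0 (1 - (b0 + b2 + b3)) b2 b3 c0 c1 (1 - (c0 + c1 + c3)) c3 d0 d1 d2 (1 - (d0 + d1 + d2)) ∨
    (1 - (a1 + a2 + a3) - (c0 + c1 + c3)) * (1 - (b0 + b2 + b3) - (d0 + d1 + d2)) ≤ PP (1 - (a1 + a2 + a3)) a1 a2 a3 b0 (1 - (b0 + b2 + b3)) b2 b3 c0 c1 (1 - (c0 + c1 + c3)) c3 d0 d1 d2 (1 - (d0 + d1 + d2)) ∨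
    (1 - (a1 + a2 + a3) - (d0 + d1 + d2)) * (1 - (b0 + b2 + b3) - (c0 + c1 + c3)) ≤ PP (1 - (a1 + a2 + a3)) a1 a2 a3 b0 (1 - (b0 + b2 + b3)) b2 b3 c0 c1 (1 - (c0 + c1 + c3)) c3 d0 d1 d2 (1 - (d0 + d1 + d2)) := by
  obtain ⟨x1, x2, x3, k0, l0⟩ : ∃ x1 x2 x3 : ℝ, ((x1 = (a1 + a2 + a3) ∧ x2 = 0 ∧ x3 = 0) ∨ (x1 = 0 ∧ x2 = (a1 + a2 + a3) ∧ x3 = 0) ∨ (x1 = 0 ∧ x2 = 0 ∧ x3 = (a1 + a2 + a3))) ∧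
      PP (1 - (a1 + a2 + a3)) x1 x2 x3 b0 (1 - (b0 + b2 + b3)) b2 b3 c0 c1 (1 - (c0 + c1 + c3)) c3 d0 d1 d2 (1 - (d0 + d1 + d2)) ≤ PP (1 - (a1 + a2 + a3)) a1 a2 a3 b0 (1 - (b0 + b2 + b3)) b2 b3 c0 c1 (1 - (c0 + c1 + c3)) c3 d0 d1 d2 (1 - (d0 + d1 + d2)) := by
    rcases row0 ha1 ha2 ha3 b0 (1 - (b0 + b2 + b3)) b2 b3 c0 c1 (1 - (c0 + c1 + c3)) c3 d0 d1 d2 (1 - (d0 + d1 + d2)) with h | h | h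
    · exact ⟨_, _, _, Or.inl ⟨rfl, rfl, rfl⟩, h⟩
    · exact ⟨_, _, _, Or.inr (Or.inl ⟨rfl, rfl, rfl⟩), h⟩
    · exact ⟨_, _, _, Or.inr (Or.inr ⟨rfl, rfl, rfl⟩), h⟩
  obtain ⟨y0, y2, y3, k1, l1⟩ : ∃ y0 y2 y3 : ℝ, ((y0 = (b0 + b2 + b3) ∧ y2 = 0 ∧ y3 = 0) ∨ (y0 = 0 ∧ y2 = (b0 + b2 + b3) ∧ y3 = 0) ∨ (y0 = 0 ∧ y2 = 0 ∧ y3 = (b0 + b2 + b3))) ∧
      PP (1 - (a1 + a2 + a3)) x1 x2 x3 y0 (1 - (b0 + b2 + b3)) y2 y3 c0 c1 (1 - (c0 + c1 + c3)) c3 d0 d1 d2 (1 - (d0 + d1 + d2)) ≤ PP (1 - (a1 + a2 + a3)) x1 x2 x3 b0 (1 - (b0 + b2 + b3)) b2 b3 c0 c1 (1 - (c0 + c1 + c3)) c3 d0 d1 d2 (1 - (d0 + d1 + d2)) := by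
    rcases row1 hb0 hb2 hb3 (1 - (a1 + a2 + a3)) x1 x2 x3 c0 c1 (1 - (c0 + c1 + c3)) c3 d0 d1 d2 (1 - (d0 + d1 + d2)) with h | h | h
    · exact ⟨_, _, _, Or.inl ⟨rfl, rfl, rfl⟩, h⟩
    · exact ⟨_, _, _, Or.inr (Or.inl ⟨rfl, rfl, rfl⟩), h⟩
    · exact ⟨_, _, _, Or.inr (Or.inr ⟨rfl, rfl, rfl⟩), h⟩
  obtain ⟨z0, z1, z3, k2, l2⟩ : ∃ z0 z1 z3 : ℝ, ((z0 = (c0 + c1 + c3) ∧ z1 = 0 ∧ z3 = 0) ∨ (z0 = 0 ∧ z1 = (c0 + c1 + c3) ∧ z3 = 0) ∨ (z0 = 0 ∧ z1 = 0 ∧ z3 = (c0 + c1 + c3))) ∧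
      PP (1 - (a1 + a2 + a3)) x1 x2 x3 y0 (1 - (b0 + b2 + b3)) y2 y3 z0 z1 (1 - (c0 + c1 + c3)) z3 d0 d1 d2 (1 - (d0 + d1 + d2)) ≤ PP (1 - (a1 + a2 + a3)) x1 x2 x3 y0 (1 - (b0 + b2 + b3)) y2 y3 c0 c1 (1 - (c0 + c1 + c3)) c3 d0 d1 d2 (1 - (d0 + d1 + d2)) := by
    rcases row2 hc0 hc1 hc3 (1 - (a1 + a2 + a3)) x1 x2 x3 y0 (1 - (b0 + b2 + b3)) y2 y3 d0 d1 d2 (1 - (d0 + d1 + d2)) with h | h | h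
    · exact ⟨_, _, _, Or.inl ⟨rfl, rfl, rfl⟩, h⟩
    · exact ⟨_, _, _, Or.inr (Or.inl ⟨rfl, rfl, rfl⟩), h⟩
    · exact ⟨_, _, _, Or.inr (Or.inr ⟨rfl, rfl, rfl⟩), h⟩
  obtain ⟨w0, w1, w2, k3, l3⟩ : ∃ w0 w1 w2 : ℝ, ((w0 = (d0 + d1 + d2) ∧ w1 = 0 ∧ w2 = 0) ∨ (w0 = 0 ∧ w1 = (d0 + d1 + d2) ∧ w2 = 0) ∨ (w0 = 0 ∧ w1 = 0 ∧ w2 = (d0 + d1 + d2))) ∧
      PP (1 - (a1 + a2 + a3)) x1 x2 x3 y0 (1 - (b0 + b2 + b3)) y2 y3 z0 z1 (1 - (c0 + c1 + c3)) z3 w0 w1 w2 (1 - (d0 + d1 + d2)) ≤ PP (1 - (a1 + a2 + a3)) x1 x2 x3 y0 (1 - (b0 + b2 + b3)) y2 y3 z0 z1 (1 - (c0 + c1 + c3)) z3 d0 d1 d2 (1 - (d0 + d1 + d2)) := by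
    rcases row3 hd0 hd1 hd2 (1 - (a1 + a2 + a3)) x1 x2 x3 y0 (1 - (b0 + b2 + b3)) y2 y3 z0 z1 (1 - (c0 + c1 + c3)) z3 with h | h | h
    · exact ⟨_, _, _, Or.inl ⟨rfl, rfl, rfl⟩, h⟩
    · exact ⟨_, _, _, Or.inr (Or.inl ⟨rfl, rfl, rfl⟩), h⟩
    · exact ⟨_, _, _, Or.inr (Or.inr ⟨rfl, rfl, rfl⟩), h⟩
  have hl := l3.trans (l2.trans (l1.trans l0))
  rcases vert (A := (a1 + a2 + a3)) (B := (b0 + b2 + b3)) (C := (c0 + c1 + c3)) (D := (d0 + d1 + d2)) (by positivity) (by positivity) (by positivity) (by positivity)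
    hs k0 k1 k2 k3 with h | h | h
  · exact Or.inl (h.trans hl)
  · exact Or.inr (Or.inl (h.trans hl))
  · exact Or.inr (Or.inr (h.trans hl))

/-- **The determinant of a row stochastic matrix of order four with a large diagonal.** -/
theorem det_ge {M : Matrix (Fin 4) (Fin 4) ℝ} (h0 : ∀ i j, 0 ≤ M i j) (h1 : ∀ i, ∑ j, M i j = 1)
    (hc : ∑ i, (1 - M i i) ≤ 1) :
    (1 - (1 - M 0 0) - (1 - M 1 1)) * (1 - (1 - M 2 2) - (1 - M 3 3)) ≤ M.det ∨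
    (1 - (1 - M 0 0) - (1 - M 2 2)) * (1 - (1 - M 1 1) - (1 - M 3 3)) ≤ M.det ∨
    (1 - (1 - M 0 0) - (1 - M 3 3)) * (1 - (1 - M 1 1) - (1 - M 2 2)) ≤ M.det := by
  have e0 : M 0 0 = 1 - (M 0 1 + M 0 2 + M 0 3) := by
    have := h1 0
    simp only [Fin.sum_univ_four] at this
    linarith
  have e1 : M 1 1 = 1 - (M 1 0 + M 1 2 + M 1 3) := by
    have := h1 1
    simp only [Fin.sum_univ_four] at this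
    linarith
  have e2 : M 2 2 = 1 - (M 2 0 + M 2 1 + M 2 3) := by
    have := h1 2
    simp only [Fin.sum_univ_four] at this
    linarith
  have e3 : M 3 3 = 1 - (M 3 0 + M 3 1 + M 3 2) := by
    have := h1 3
    simp only [Fin.sum_univ_four] at this
    linarith
  simp only [Fin.sum_univ_four] at hc
  have key := PP_ge (h0 0 1) (h0 0 2) (h0 0 3) (h0 1 0) (h0 1 2) (h0 1 3) (h0 2 0) (h0 2 1) (h0 2 3) (h0 3 0) (h0 3 1)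
    (h0 3 2) (by linarith)
  rw [← e0, ← e1, ← e2, ← e3, ← det_eq] at key
  have f0 : 1 - M 0 0 = M 0 1 + M 0 2 + M 0 3 := by linarith
  have f1 : 1 - M 1 1 = M 1 0 + M 1 2 + M 1 3 := by linarith
  have f2 : 1 - M 2 2 = M 2 0 + M 2 1 + M 2 3 := by linarith
  have f3 : 1 - M 3 3 = M 3 0 + M 3 1 + M 3 2 := by linarith
  have g : ∀ i : Fin 4, 1 - (1 - M i i) = M i i := fun i => by ring
  rw [g 0, g 1, g 2, f1, f2, f3]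
  exact key

end Pool.Agent.Helper4.ML3
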