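import Pool.Agent.Helper59.Pack.Section

/-!
# A frame for a convex body of large asymmetry
-/

set_option autoImplicit false

namespace Pool.Agent.Helper4.ML3

open MeasureTheory Metric Set
open Pool.Agent.Helper59.Pack Pool.Agent.Helper69.MD
open scoped Pointwise

/-- four points whose translates have no common point -/
theorem four_points {K : Set E3} (hK : IsConvexBody K) {s : ℝ} (h : ¬ ∃ x, ∀ y ∈ K, x - y ∈ s • K) :
    ∃ y : Fin 4 → E3, (∀ i, y i ∈ K) ∧ ∀ x, ∃ i, x - y i ∉ s • K := by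
  classical
  have hF1 : ∀ y : K, Convex ℝ ((y : E3) +ᵥ (s • K)) := fun y => (hK.convex.smul s).vadd _
  have hF2 : ∀ y : K, IsCompact ((y : E3) +ᵥ (s • K)) := fun y => (hK.isCompact.smul s).vadd _
  have hmem : ∀ (y : K) (x : E3), x ∈ (y : E3) +ᵥ (s • K) ↔ x - y ∈ s • K := by
    intro y x
    rw [Set.mem_vadd_set_iff_neg_vadd_mem, vadd_eq_add, neg_add_eq_sub]
  have h1 : ¬ (⋂ y : K, ((y : E3) +ᵥ (s • K))).Nonempty := by
    rintro ⟨x, hx⟩
    apply h
    refine ⟨x, fun y hy => ?_⟩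
    rw [Set.mem_iInter] at hx
    exact (hmem ⟨y, hy⟩ x).1 (hx ⟨y, hy⟩)
  have h2 : ∃ I : Finset K, I.card ≤ 4 ∧ ¬ (⋂ i ∈ I, ((i : E3) +ᵥ (s • K))).Nonempty := by
    by_contra hcon
    push Not at hcon
    apply h1
    apply Convex.helly_theorem_compact' (𝕜 := ℝ) hF1 hF2
    intro I hI
    rw [finrank_euclideanSpace, Fintype.card_fin] at hI
    exact hcon I hI
  obtain ⟨I, hI, hemp⟩ := h2
  have hIne : I.Nonempty := by
    rw [Finset.nonempty_iff_ne_empty]
    rintro rfl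
    apply hemp
    simp
  have : Nonempty I := hIne.coe_sort
  obtain ⟨e⟩ : Nonempty (I ↪ Fin 4) := Function.Embedding.nonempty_of_card_le (by
    rw [Fintype.card_coe, Fintype.card_fin]
    exact hI)
  refine ⟨fun j => ((Function.invFun e j : I) : K), fun j => ((Function.invFun e j : I) : K).2, ?_⟩
  intro x
  by_contra hcon
  push Not at hcon
  apply hemp
  refine ⟨x, ?_⟩
  rw [Set.mem_iInter₂]
  intro i hi
  obtain ⟨j, hj⟩ := Function.invFun_surjective e.injective ⟨i, hi⟩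
  have h3 := hcon j
  rw [hj] at h3
  exact (hmem i x).2 h3

/-- separation -/
theorem separate {K : Set E3} (hK : IsConvexBody K) {s : ℝ} {y : Fin 4 → E3} (hy : ∀ x, ∃ i, x - y i ∉ s • K) :
    ∃ w : Fin 4 → E3, ∑ i, w i = 0 ∧ ∀ k : Fin 4 → E3, (∀ i, k i ∈ K) →
      ∑ i, (inner ℝ (w i) (y i) + s * inner ℝ (w i) (k i)) < 0 := by
  classical
  obtain ⟨P, hP⟩ : ∃ P : Set (Fin 4 → E3), P = Set.pi Set.univ fun i => (y i) +ᵥ (s • K) := ⟨_, rfl⟩
  obtain ⟨Dg, hDg⟩ : ∃ D : Set (Fin 4 → E3), D = Set.range fun (d : E3) (_ : Fin 4) => d := ⟨_, rfl⟩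
  have hP1 : Convex ℝ P := by
    rw [hP]
    exact convex_pi fun i _ => (hK.convex.smul s).vadd _
  have hP2 : IsCompact P := by
    rw [hP]
    exact isCompact_univ_pi fun i => (hK.isCompact.smul s).vadd _
  have hD1 : Convex ℝ Dg := by
    rw [hDg]
    rintro _ ⟨d, rfl⟩ _ ⟨d', rfl⟩ a b _ _ _
    exact ⟨a • d + b • d', rfl⟩
  have hD2 : IsClosed Dg := by
    have e : Dg = ⋂ i : Fin 4, {z : Fin 4 → E3 | z i = z 0} := by
      rw [hDg]
      ext z
      rw [Set.mem_iInter]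
      constructor
      · rintro ⟨d, rfl⟩ i
        rfl
      · intro hz
        refine ⟨z 0, ?_⟩
        funext i
        exact (hz i).symm
    rw [e]
    exact isClosed_iInter fun i => isClosed_eq (continuous_apply i) (continuous_apply 0)
  have hdisj : Disjoint P Dg := by
    rw [Set.disjoint_left]
    intro z hz hz'
    rw [hDg] at hz'
    obtain ⟨d, rfl⟩ := hz'
    obtain ⟨i, hi⟩ := hy d
    apply hi
    rw [hP] at hz
    have h1 := hz i (Set.mem_univ i)
    rw [Set.mem_vadd_set_iff_neg_vadd_mem, vadd_eq_add, neg_add_eq_sub] at h1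
    exact h1
  obtain ⟨f, a, b, h1, h2, h3⟩ := geometric_hahn_banach_compact_closed hP1 hP2 hD1 hD2 hdisj
  -- the form vanishes on the diagonal
  have hf0 : ∀ d : E3, f (fun _ => d) = 0 := by
    intro d
    by_contra hne
    have h4 := h3 (fun _ => (b / f (fun _ => d)) • d) (by rw [hDg]; exact ⟨_, rfl⟩)
    have h5 : (fun _ : Fin 4 => (b / f (fun _ => d)) • d) = (b / f (fun _ => d)) • (fun _ : Fin 4 => d) := rfl
    rw [h5, map_smul, smul_eq_mul, div_mul_cancel₀ _ hne] at h4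
    exact lt_irrefl _ h4
  have hb0 : b < 0 := by
    have h4 := h3 (fun _ => 0) (by rw [hDg]; exact ⟨0, rfl⟩)
    rwa [hf0] at h4
  obtain ⟨w, hw⟩ : ∃ w : Fin 4 → E3, ∀ i z, inner ℝ (w i) z = f (Pi.single i z) := by
    refine ⟨fun i => (InnerProductSpace.toDual ℝ E3).symm (f.comp (ContinuousLinearMap.single ℝ (fun _ : Fin 4 => E3) i)),
      fun i z => ?_⟩
    rw [InnerProductSpace.toDual_symm_apply]
    rfl
  have hsum : ∀ z : Fin 4 → E3, f z = ∑ i, inner ℝ (w i) (z i) := by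
    intro z
    have h4 : z = ∑ i, Pi.single i (z i) := (Finset.univ_sum_single z).symm
    conv_lhs => rw [h4]
    rw [map_sum]
    exact Finset.sum_congr rfl fun i _ => (hw i _).symm
  refine ⟨w, ?_, ?_⟩
  · have h4 := hf0 (∑ i, w i)
    rw [hsum] at h4
    have h5 : inner ℝ (∑ i, w i) (∑ i, w i) = (0 : ℝ) := by
      rw [← h4]
      exact sum_inner _ _ _
    exact inner_self_eq_zero.1 h5
  · intro k hk
    have h4 := h1 (fun i => y i + s • k i) (by
      rw [hP]
      intro i _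
      exact ⟨s • k i, Set.smul_mem_smul_set (hk i), rfl⟩)
    rw [hsum] at h4
    have h5 : ∀ i, inner ℝ (w i) (y i + s • k i) = inner ℝ (w i) (y i) + s * inner ℝ (w i) (k i) := fun i => by
      rw [inner_add_right, inner_smul_right]
    simp only [h5] at h4
    linarith

/-- **The frame.** -/
theorem helly_frame {K : Set E3} (hK : IsConvexBody K) {s : ℝ} (_hs : 0 < s) (h : ¬ ∃ x, ∀ y ∈ K, x - y ∈ s • K) :
    ∃ (u : Fin 4 → E3) (c : Fin 4 → ℝ) (p : Fin 4 → E3), (∀ i, p i ∈ K) ∧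
      (∀ x, ∑ i, (c i + inner ℝ (u i) x) = 1) ∧
      (∀ i, ∀ x ∈ K, 0 ≤ c i + inner ℝ (u i) x ∧ c i + inner ℝ (u i) x ≤ c i + inner ℝ (u i) (p i)) ∧
      1 + s < ∑ i, (c i + inner ℝ (u i) (p i)) := by
  obtain ⟨y, hyK, hy⟩ := four_points hK h
  obtain ⟨w, hw0, hw⟩ := separate hK hy
  have hKne : K.Nonempty := hK.interior_nonempty.mono interior_subset
  have hmax : ∀ i, ∃ q ∈ K, ∀ x ∈ K, inner ℝ (w i) x ≤ inner ℝ (w i) q := fun i =>
    hK.isCompact.exists_isMaxOn hKne (f := fun x => inner ℝ (w i) x) (by fun_prop)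
  have hmin : ∀ i, ∃ q ∈ K, ∀ x ∈ K, inner ℝ (w i) q ≤ inner ℝ (w i) x := fun i =>
    hK.isCompact.exists_isMinOn hKne (f := fun x => inner ℝ (w i) x) (by fun_prop)
  choose q hqK hq using hmax
  choose p hpK hp using hmin
  obtain ⟨H, hH⟩ : ∃ H : ℝ, H = ∑ i, inner ℝ (w i) (q i) := ⟨_, rfl⟩
  have hw0x : ∀ x : E3, ∑ i, inner ℝ (w i) x = 0 := by
    intro x
    rw [← sum_inner, hw0, inner_zero_left]
  have hlt := hw q hqK
  rw [Finset.sum_add_distrib, ← Finset.mul_sum, ← hH] at hlt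
  obtain ⟨x₀, hx₀⟩ := hKne
  have hH0 : 0 ≤ H := by
    rw [hH, ← hw0x x₀]
    exact Finset.sum_le_sum fun i _ => hq i x₀ hx₀
  have hHpos : 0 < H := by
    rcases hH0.lt_or_eq with h1 | h1
    · exact h1
    · exfalso
      have h2 : ∀ x ∈ K, ∀ i, inner ℝ (w i) x = inner ℝ (w i) (q i) := by
        intro x hx i
        have h3 : ∑ i, (inner ℝ (w i) (q i) - inner ℝ (w i) x) = (0 : ℝ) := by
          rw [Finset.sum_sub_distrib, ← hH, hw0x, ← h1, sub_zero]
        have h4 := (Finset.sum_eq_zero_iff_of_nonneg (fun i _ => sub_nonneg.2 (hq i x hx))).1 h3 i (Finset.mem_univ i)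
        linarith
      have h5 : ∑ i, inner ℝ (w i) (y i) = H := by
        rw [hH]
        exact Finset.sum_congr rfl fun i _ => h2 _ (hyK i) i
      rw [h5, ← h1] at hlt
      simp at hlt
  have hval : ∀ i x, inner ℝ (w i) (q i) / H + inner ℝ (-(H⁻¹ • w i)) x = (inner ℝ (w i) (q i) - inner ℝ (w i) x) / H := by
    intro i x
    rw [inner_neg_left, inner_smul_left]
    simp only [conj_trivial]
    field_simp
    ring
  refine ⟨fun i => -(H⁻¹ • w i), fun i => inner ℝ (w i) (q i) / H, p, hpK, ?_, ?_, ?_⟩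
  · intro x
    simp only [hval]
    rw [← Finset.sum_div, Finset.sum_sub_distrib, ← hH, hw0x, sub_zero, div_self hHpos.ne']
  · intro i x hx
    simp only [hval]
    constructor
    · exact div_nonneg (sub_nonneg.2 (hq i x hx)) hHpos.le
    · apply div_le_div_of_nonneg_right _ hHpos.le
      have := hp i x hx
      linarith
  · simp only [hval]
    rw [← Finset.sum_div, Finset.sum_sub_distrib, ← hH, lt_div_iff₀ hHpos]
    have h1 : ∑ i, inner ℝ (w i) (p i) ≤ ∑ i, inner ℝ (w i) (y i) :=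
      Finset.sum_le_sum fun i _ => hp i _ (hyK i)
    linarith

end Pool.Agent.Helper4.ML3
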